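import Pool.Agent.Y553.PL.Stm

/-!
# Project PL (helper553): cardinalities, the dominating sort

The bound of colour 3 is adapted from `card_bound` of
`Pool/Agent/Results/MP_abe753_lc/PlusNotLocal.lean`.
-/

set_option autoImplicit false

namespace Pool.Agent.Y195.PL

open Pool.Agent.Y553.PL Pool.Agent.Results.MP_abe753_lc.PlusNotLocal

theorem t_CARDW : St_CARDW := by
  intro V _ G m k l P h hkl hk hS
  have hl : 8 ≤ l := by omega
  have n1 : (G.colour 1).ncard = k := by
    rw [← P.α_bij.image_eq, Set.ncard_image_of_injOn P.α_bij.injOn, Set.ncard_univ, Nat.card_fin]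
  have n2 : (G.colour 2).ncard = l := by
    rw [← P.β_bij.image_eq, Set.ncard_image_of_injOn P.β_bij.injOn, Set.ncard_univ, Nat.card_fin]
  have n4 : (G.colour 4).ncard = l ^ k := by
    rw [← P.w_bij.image_eq, Set.ncard_image_of_injOn P.w_bij.injOn, Set.ncard_univ,
      Nat.card_eq_fintype_card]
    simp
  have n3 : (G.colour 3).ncard ≤ k * l := by
    choose g1 hg1 using h.fst
    choose g2 hg2 using h.snd
    have h1 : Nat.card (G.colour 3) ≤ Nat.card (G.colour 1 × G.colour 2) := by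
      refine Nat.card_le_card_of_injective
        (fun d => (⟨g1 d d.2, (hg1 d d.2).1⟩, ⟨g2 d d.2, (hg2 d d.2).1⟩)) ?_
      intro d e hde
      simp only [Prod.mk.injEq, Subtype.mk.injEq] at hde
      refine Subtype.ext (h.pairu d d.2 e e.2 _ (hg1 d d.2).1 _ (hg2 d d.2).1 (hg1 d d.2).2
        (hg2 d d.2).2 ?_ ?_)
      · rw [hde.1]; exact (hg1 e e.2).2
      · rw [hde.2]; exact (hg2 e e.2).2
    rw [Nat.card_prod, Nat.card_coe_set_eq, Nat.card_coe_set_eq, Nat.card_coe_set_eq, n1, n2] at h1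
    exact h1
  have hc : (G.colour 4)ᶜ.ncard ≤ (G.colour 0).ncard + k + l + k * l := by
    have h1 : (G.colour 4)ᶜ ⊆ ((G.colour 0 ∪ G.colour 1) ∪ G.colour 2) ∪ G.colour 3 := by
      intro x hx
      rcases h.cover x with h0 | h0 | h0 | h0 | h0
      · exact Or.inl (Or.inl (Or.inl h0))
      · exact Or.inl (Or.inl (Or.inr h0))
      · exact Or.inl (Or.inr h0)
      · exact Or.inr h0
      · exact absurd h0 hx
    have h2 := Set.ncard_le_ncard h1 (Set.toFinite _)
    have h3 := Set.ncard_union_le ((G.colour 0 ∪ G.colour 1) ∪ G.colour 2) (G.colour 3)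
    have h4 := Set.ncard_union_le (G.colour 0 ∪ G.colour 1) (G.colour 2)
    have h5 := Set.ncard_union_le (G.colour 0) (G.colour 1)
    omega
  have hV : Nat.card V = l ^ k + (G.colour 4)ᶜ.ncard := by
    rw [← n4, Set.ncard_add_ncard_compl]
  rw [hV]
  set S := (G.colour 0).ncard with hSdef
  set W := (G.colour 4)ᶜ.ncard with hWdef
  have hkm : k ^ m ≤ l ^ m := Nat.pow_le_pow_left hkl m
  have hS' : S ≤ 4 * l ^ m := hS.trans (Nat.mul_le_mul_left _ hkm)
  have hp1 : 0 < l ^ m := Nat.pow_pos (by omega)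
  have e1 : l ^ (m + 2) = l ^ m * (l * l) := by ring
  have e2 : l ^ m ≤ l ^ (m + 2) := Nat.pow_le_pow_right (by omega) (by omega)
  have e3 : l * l ≤ l ^ (m + 2) := by
    rw [e1]
    exact Nat.le_mul_of_pos_left _ hp1
  have e4 : k * l ≤ l * l := Nat.mul_le_mul_right _ hkl
  have e5 : l ≤ l * l := Nat.le_mul_of_pos_left _ (by omega)
  have hW' : W ≤ 7 * l ^ (m + 2) := by omega
  have h6 : S * W ≤ (4 * l ^ m) * (7 * l ^ (m + 2)) := Nat.mul_le_mul hS' hW'
  have h7 : (4 * l ^ m) * (7 * l ^ (m + 2)) = 28 * l ^ (2 * m + 2) := by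
    have : l ^ (2 * m + 2) = l ^ m * l ^ (m + 2) := by
      rw [← pow_add]
      congr 1
      ring
    rw [this]
    ring
  have h8 : 28 * l ^ (2 * m + 2) < l ^ 2 * l ^ (2 * m + 2) := by
    apply Nat.mul_lt_mul_of_pos_right
    · nlinarith
    · exact Nat.pow_pos (by omega)
  have h9 : l ^ 2 * l ^ (2 * m + 2) ≤ l ^ k := by
    rw [← pow_add]
    exact Nat.pow_le_pow_right (by omega) (by omega)
  omega

end Pool.Agent.Y195.PL
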